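import Pool.Agent.Q130.TC.Stm2

/-!
Reduced representations of trace class operators (job RED of helper130).
-/

set_option autoImplicit false

namespace Pool.Agent.Q144.TC.RED

open MeasureTheory Set Metric Filter Topology
open scoped InnerProductSpace ENNReal NNReal ComplexConjugate
open Pool.Agent.Q130.TC
open Pool.Agent.Y283.NK (Repr)

/-- the space of square summable sequences -/
abbrev E2 : Type := lp (fun _ : ℕ => ℂ) 2

theorem e2_norm (c : E2) : ‖c‖ ^ 2 = ∑' j, ‖c j‖ ^ 2 := by
  have h := lp.norm_rpow_eq_tsum (p := 2) (by norm_num) c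
  simpa using h

theorem e2_summable (c : E2) : Summable fun j => ‖c j‖ ^ 2 := by
  have h := (lp.memℓp c).summable (by norm_num)
  simpa using h

theorem e2_mem {f : ℕ → ℂ} (h : Summable fun j => ‖f j‖ ^ 2) : Memℓp f 2 := by
  apply memℓp_gen
  simpa using h

variable {H : Type} [NormedAddCommGroup H] [InnerProductSpace ℂ H]

theorem sum_inn {u : ℕ → H} (hu : Summable fun j => ‖u j‖ ^ 2) (x : H) :
    Summable fun j => ‖⟪u j, x⟫_ℂ‖ ^ 2 := by
  refine Summable.of_nonneg_of_le (fun j => by positivity) (fun j => ?_) (hu.mul_right (‖x‖ ^ 2))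
  rw [← mul_pow]
  exact pow_le_pow_left₀ (norm_nonneg _) (norm_inner_le_norm _ _) 2

theorem tsum_inn {u : ℕ → H} (hu : Summable fun j => ‖u j‖ ^ 2) (x : H) :
    ∑' j, ‖⟪u j, x⟫_ℂ‖ ^ 2 ≤ (∑' j, ‖u j‖ ^ 2) * ‖x‖ ^ 2 := by
  rw [← tsum_mul_right]
  refine (sum_inn hu x).tsum_le_tsum (fun j => ?_) (hu.mul_right (‖x‖ ^ 2))
  rw [← mul_pow]
  exact pow_le_pow_left₀ (norm_nonneg _) (norm_inner_le_norm _ _) 2

/-- the operator `x ↦ (⟪u j, x⟫)` -/
noncomputable def TT (u : ℕ → H) (hu : Summable fun j => ‖u j‖ ^ 2) : H →L[ℂ] E2 :=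
  LinearMap.mkContinuous
    { toFun := fun x => (⟨fun j => ⟪u j, x⟫_ℂ, e2_mem (sum_inn hu x)⟩ : E2)
      map_add' := fun x y => by
        apply Subtype.ext
        funext j
        exact inner_add_right _ _ _
      map_smul' := fun a x => by
        apply Subtype.ext
        funext j
        exact inner_smul_right _ _ _ }
    (√(∑' j, ‖u j‖ ^ 2)) (fun x => by
      refine (pow_le_pow_iff_left₀ (norm_nonneg _) (by positivity) two_ne_zero).1 ?_
      rw [mul_pow, Real.sq_sqrt (tsum_nonneg fun j => by positivity), e2_norm]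
      exact tsum_inn hu x)

theorem TT_app (u : ℕ → H) (hu : Summable fun j => ‖u j‖ ^ 2) (x : H) (j : ℕ) :
    TT u hu x j = ⟪u j, x⟫_ℂ := rfl

variable [CompleteSpace H]

/-- the operator `c ↦ ∑ c j • u j` -/
noncomputable def UU (u : ℕ → H) (hu : Summable fun j => ‖u j‖ ^ 2) : E2 →L[ℂ] H :=
  ContinuousLinearMap.adjoint (TT u hu)

theorem UU_inner (u : ℕ → H) (hu : Summable fun j => ‖u j‖ ^ 2) (c : E2) (x : H) :
    ⟪UU u hu c, x⟫_ℂ = ⟪c, TT u hu x⟫_ℂ := by
  unfold UU
  exact ContinuousLinearMap.adjoint_inner_left _ _ _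

theorem UU_single (u : ℕ → H) (hu : Summable fun j => ‖u j‖ ^ 2) (j : ℕ) (a : ℂ) :
    UU u hu (lp.single 2 j a) = a • u j := by
  refine ext_inner_right ℂ fun x => ?_
  rw [UU_inner, lp.inner_single_left, TT_app, inner_smul_left]
  simp [mul_comm]

theorem UU_sum (u : ℕ → H) (hu : Summable fun j => ‖u j‖ ^ 2) (c : E2) :
    HasSum (fun j => c j • u j) (UU u hu c) := by
  have h := (UU u hu).hasSum (lp.hasSum_single (p := 2) (by norm_num) c)
  simp only [UU_single] at h
  exact h

/-- Hilbert-Schmidt estimate -/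
theorem hs {ι : Type} {b : ι → E2} (hb : Orthonormal ℂ b) (u : ℕ → H)
    (hu : Summable fun j => ‖u j‖ ^ 2) (s : Finset ι) :
    ∑ i ∈ s, ‖UU u hu (b i)‖ ^ 2 ≤ ∑' j, ‖u j‖ ^ 2 := by
  classical
  let F : Submodule ℂ H := Submodule.span ℂ ((fun i => UU u hu (b i)) '' (s : Set ι))
  have : FiniteDimensional ℂ F := FiniteDimensional.span_of_finite ℂ (s.finite_toSet.image _)
  let f := stdOrthonormalBasis ℂ F
  have hf : Orthonormal ℂ (fun a => (f a : H)) := f.orthonormal.comp_linearIsometry F.subtypeₗᵢ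
  have h1 : ∀ i ∈ s, ‖UU u hu (b i)‖ ^ 2 = ∑ a, ‖⟪b i, TT u hu (f a : H)⟫_ℂ‖ ^ 2 := by
    intro i hi
    have hmem : UU u hu (b i) ∈ F := Submodule.subset_span ⟨i, hi, rfl⟩
    have h2 := f.sum_sq_norm_inner_right (⟨UU u hu (b i), hmem⟩ : F)
    have h3 : ‖(⟨UU u hu (b i), hmem⟩ : F)‖ = ‖UU u hu (b i)‖ := rfl
    rw [← h3, ← h2]
    refine Finset.sum_congr rfl fun a _ => ?_
    have h4 : ⟪f a, (⟨UU u hu (b i), hmem⟩ : F)⟫_ℂ = ⟪(f a : H), UU u hu (b i)⟫_ℂ := rfl
    rw [h4, ← UU_inner, ← inner_conj_symm, RCLike.norm_conj]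
  rw [Finset.sum_congr rfl h1, Finset.sum_comm]
  calc ∑ a, ∑ i ∈ s, ‖⟪b i, TT u hu (f a : H)⟫_ℂ‖ ^ 2
      ≤ ∑ a, ‖TT u hu (f a : H)‖ ^ 2 := Finset.sum_le_sum fun a _ => hb.sum_inner_products_le _
    _ = ∑ a, ∑' j, ‖⟪u j, (f a : H)⟫_ℂ‖ ^ 2 := by
        refine Finset.sum_congr rfl fun a _ => ?_
        rw [e2_norm]
        rfl
    _ = ∑' j, ∑ a, ‖⟪u j, (f a : H)⟫_ℂ‖ ^ 2 := by
        rw [Summable.tsum_finsetSum]
        intro a _
        exact sum_inn hu _
    _ ≤ ∑' j, ‖u j‖ ^ 2 := by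
        refine (summable_sum fun a _ => sum_inn hu _).tsum_le_tsum (fun j => ?_) hu
        have h5 := hf.sum_inner_products_le (s := Finset.univ) (u j)
        refine le_trans (le_of_eq ?_) h5
        refine Finset.sum_congr rfl fun a _ => ?_
        rw [← inner_conj_symm, RCLike.norm_conj]

theorem hsc {α β : Type} [AddCommMonoid β] [TopologicalSpace β] {f g : α → β} {a : β}
    (h : ∀ i, f i = g i) (hf : HasSum f a) : HasSum g a := by
  have e : f = g := funext h
  rwa [e] at hf

/-- orthonormal families in the space of square summable sequences are countable -/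
theorem count {ι : Type} {bb : ι → E2} (hbb : Orthonormal ℂ bb) : Countable ι := by
  classical
  have h0 : ∀ j : ℕ, (Function.support fun i : ι => ‖⟪bb i, (lp.single 2 j (1:ℂ) : E2)⟫_ℂ‖ ^ 2).Countable := by
    intro j
    have h : Summable fun i : ι => ‖⟪bb i, (lp.single 2 j (1:ℂ) : E2)⟫_ℂ‖ ^ 2 :=
      hbb.inner_products_summable (lp.single 2 j (1:ℂ) : E2)
    exact h.countable_support
  have h1 := Set.countable_iUnion h0
  have h2 : (⋃ j : ℕ, Function.support fun i : ι => ‖⟪bb i, (lp.single 2 j (1:ℂ) : E2)⟫_ℂ‖ ^ 2) = Set.univ := by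
    rw [Set.eq_univ_iff_forall]
    intro i
    by_contra hcon
    simp only [Set.mem_iUnion, Function.mem_support, not_exists, not_not] at hcon
    have h3 : bb i = 0 := by
      apply Subtype.ext
      funext j
      have h4 := hcon j
      rw [sq_eq_zero_iff, norm_eq_zero, lp.inner_single_right] at h4
      have h5 : conj (bb i j) = 0 := by simpa using h4
      have h6 : bb i j = 0 := by simpa using h5
      exact h6
    exact hbb.ne_zero i h3
  rw [h2] at h1
  exact Set.countable_univ_iff.1 h1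

theorem red : S_RED := by
  classical
  intro H _ _ _ K u v ⟨hu, hv, hK⟩
  obtain ⟨U, hU⟩ : ∃ U, U = UU u hu := ⟨_, rfl⟩
  obtain ⟨V, hV⟩ : ∃ V, V = UU v hv := ⟨_, rfl⟩
  obtain ⟨T, hT⟩ : ∃ T, T = TT v hv := ⟨_, rfl⟩
  obtain ⟨M, hM⟩ : ∃ M : Submodule ℂ E2, M = (U.ker)ᗮ := ⟨_, rfl⟩
  have : CompleteSpace M := by
    rw [hM]
    exact (Submodule.isClosed_orthogonal U.ker).completeSpace_coe
  obtain ⟨w, b, hb⟩ := exists_hilbertBasis ℂ M
  let bb : w → E2 := fun i => (b i : E2)
  have hbb : Orthonormal ℂ bb := b.orthonormal.comp_linearIsometry M.subtypeₗᵢ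
  have hcount : Countable w := count hbb
  obtain ⟨g, hg⟩ := exists_injective_nat w
  let u' : ℕ → H := Function.extend g (fun i => U (bb i)) 0
  let v' : ℕ → H := Function.extend g (fun i => V (bb i)) 0
  have hu'g : ∀ i, u' (g i) = U (bb i) := fun i => hg.extend_apply _ _ i
  have hv'g : ∀ i, v' (g i) = V (bb i) := fun i => hg.extend_apply _ _ i
  have hu'0 : ∀ n, n ∉ Set.range g → u' n = 0 := fun n hn => Function.extend_apply' _ _ n hn
  have hv'0 : ∀ n, n ∉ Set.range g → v' n = 0 := fun n hn => Function.extend_apply' _ _ n hn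
  have hsu : Summable fun i : w => ‖U (bb i)‖ ^ 2 :=
    summable_of_sum_le (fun i => by positivity) (fun s => by rw [hU]; exact hs hbb u hu s)
  have hsv : Summable fun i : w => ‖V (bb i)‖ ^ 2 :=
    summable_of_sum_le (fun i => by positivity) (fun s => by rw [hV]; exact hs hbb v hv s)
  refine ⟨u', v', ⟨?_, ?_, ?_⟩, ?_⟩
  · rw [← hg.summable_iff (f := fun n => ‖u' n‖ ^ 2) (fun n hn => by simp [hu'0 n hn])]
    refine hsu.congr fun i => ?_
    rw [Function.comp, hu'g]
  · rw [← hg.summable_iff (f := fun n => ‖v' n‖ ^ 2) (fun n hn => by simp [hv'0 n hn])]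
    refine hsv.congr fun i => ?_
    rw [Function.comp, hv'g]
  · intro f
    rw [← hg.hasSum_iff (f := fun n => ⟪v' n, f⟫_ℂ • u' n) (fun n hn => by simp [hu'0 n hn])]
    have h1 : K f = U (T f) := by
      refine (hK f).unique ?_
      rw [hU, hT]
      exact UU_sum u hu (TT v hv f)
    obtain ⟨P, hP⟩ : ∃ P : M, P = M.orthogonalProjectionOnto (T f) := ⟨_, rfl⟩
    have hPo : T f - (P : E2) ∈ Mᗮ := by
      rw [hP]
      exact M.sub_starProjection_mem_orthogonal (T f)
    have h2 : U (T f) = U (P : E2) := by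
      have h4 : Mᗮ = U.ker := by
        have : CompleteSpace U.ker := U.isClosed_ker.completeSpace_coe
        rw [hM]
        exact Submodule.orthogonal_orthogonal _
      rw [h4] at hPo
      have h5 : U (T f - (P : E2)) = 0 := hPo
      rw [map_sub, sub_eq_zero] at h5
      exact h5
    have h3 := b.hasSum_repr P
    have h4 : HasSum (fun i => ⟪bb i, T f⟫_ℂ • bb i) (P : E2) := by
      have h5 := M.subtypeL.hasSum h3
      refine hsc (fun i => ?_) h5
      rw [b.repr_apply_apply]
      have h6 : ⟪b i, P⟫_ℂ = ⟪bb i, T f⟫_ℂ := by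
        have h7 : ⟪bb i, T f - (P : E2)⟫_ℂ = 0 := hPo (b i : E2) (b i).2
        rw [inner_sub_right, sub_eq_zero] at h7
        rw [h7]
        rfl
      rw [h6]
      rfl
    rw [h1, h2]
    have h5 := U.hasSum h4
    refine hsc (fun i => ?_) h5
    simp only [Function.comp]
    rw [map_smul, hu'g, hv'g]
    congr 1
    rw [hT, hV]
    exact (UU_inner v hv (bb i) f).symm
  · intro c hc hc0 n
    by_cases hn : n ∈ Set.range g
    · obtain ⟨i, rfl⟩ := hn
      left
      have hmem : Memℓp (fun i : w => c (g i)) 2 := by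
        apply memℓp_gen
        have h1 : Summable fun i : w => ‖c (g i)‖ ^ 2 := hc.comp_injective hg
        simpa using h1
      let cc : lp (fun _ : w => ℂ) 2 := ⟨fun i => c (g i), hmem⟩
      have h1 := b.hasSum_repr_symm cc
      obtain ⟨x, hx⟩ : ∃ x, x = b.repr.symm cc := ⟨_, rfl⟩
      rw [← hx] at h1
      have h2 : HasSum (fun i => c (g i) • U (bb i)) (U (x : E2)) := by
        have h3 := U.hasSum (M.subtypeL.hasSum h1)
        refine hsc (fun i => ?_) h3
        simp only [Submodule.subtypeL_apply, map_smul]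
        rfl
      have h3 : HasSum (fun i => c (g i) • U (bb i)) 0 := by
        have h4 := (hg.hasSum_iff (f := fun n => c n • u' n) (a := 0)
          (fun n hn => by simp [hu'0 n hn])).2 hc0
        refine hsc (fun i => ?_) h4
        rw [Function.comp, hu'g]
      have h4 : U (x : E2) = 0 := h2.unique h3
      have h5 : (x : E2) ∈ U.ker := h4
      have h6 : (x : E2) = 0 := by
        have hx2 : (x : E2) ∈ (U.ker)ᗮ := by
          rw [← hM]
          exact x.2
        exact inner_self_eq_zero.1 (hx2 (x : E2) h5)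
      have h7 : x = 0 := Subtype.ext h6
      have h8 : cc = 0 := by
        rw [h7] at hx
        have h9 := congrArg b.repr hx
        rw [map_zero, LinearIsometryEquiv.apply_symm_apply] at h9
        exact h9.symm
      have h9 := congrArg (fun z : lp (fun _ : w => ℂ) 2 => z i) h8
      exact h9
    · right
      exact hv'0 n hn

theorem dns : S_DNS := by
  classical
  intro H _ _ _ u v hu hinj j hj ε hε
  let T := TT u hu
  have h1 : (lp.single 2 j (1:ℂ) : E2) ∈ (T.range).topologicalClosure := by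
    rw [← Submodule.orthogonal_orthogonal_eq_closure, Submodule.mem_orthogonal]
    intro c hc
    have h2 : UU u hu c = 0 := by
      refine ext_inner_right ℂ fun x => ?_
      rw [UU_inner, inner_zero_left]
      have h3 := (Submodule.mem_orthogonal _ _).1 hc (T x) ⟨x, rfl⟩
      rw [← inner_conj_symm, h3, map_zero]
    have h3 := UU_sum u hu c
    rw [h2] at h3
    have h4 := (hinj (fun i => c i) (e2_summable c) h3 j).resolve_right hj
    rw [lp.inner_single_right]
    simp only at h4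
    rw [h4]
    simp
  rw [← SetLike.mem_coe, Submodule.topologicalClosure_coe, Metric.mem_closure_iff] at h1
  obtain ⟨y, ⟨x, rfl⟩, hx⟩ := h1 ε hε
  refine ⟨x, fun m y hm => ?_⟩
  let Y : E2 := ∑ i ∈ Finset.range m, lp.single 2 i (y i)
  have hYj : ∀ i, Y i = if i < m then y i else 0 := by
    intro i
    have h5 : Y i = ∑ l ∈ Finset.range m, (lp.single 2 l (y l) : E2) i := by
      simp only [Y]
      rw [lp.coeFn_sum, Finset.sum_apply]
    rw [h5]
    split_ifs with h
    · rw [Finset.sum_eq_single i]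
      · exact lp.single_apply_self _ _ _
      · intro l _ hl
        exact lp.single_apply_ne _ _ _ hl.symm
      · intro h6
        exact absurd (Finset.mem_range.2 h) h6
    · refine Finset.sum_eq_zero fun l hl => ?_
      refine lp.single_apply_ne _ _ _ ?_
      rw [Finset.mem_range] at hl
      omega
  have hYn : ‖Y‖ = nm m y := by
    have h5 := e2_norm Y
    have h6 : ∑' i, ‖Y i‖ ^ 2 = ∑ i ∈ Finset.range m, ‖y i‖ ^ 2 := by
      rw [tsum_eq_sum (s := Finset.range m)]
      · refine Finset.sum_congr rfl fun i hi => ?_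
        rw [hYj, if_pos (Finset.mem_range.1 hi)]
      · intro i hi
        rw [hYj, if_neg (by rwa [Finset.mem_range] at hi)]
        simp
    unfold nm
    rw [← h6, ← h5, Real.sqrt_sq (norm_nonneg _)]
  have hUY : UU u hu Y = ∑ i ∈ Finset.range m, y i • u i := by
    simp only [Y]
    rw [map_sum]
    exact Finset.sum_congr rfl fun i _ => UU_single u hu i (y i)
  have h5 : y j - ⟪x, ∑ i ∈ Finset.range m, y i • u i⟫_ℂ =
      ⟪(lp.single 2 j (1:ℂ) : E2) - T x, Y⟫_ℂ := by
    rw [← hUY, inner_sub_left, lp.inner_single_left, hYj, if_pos hm]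
    have h6 : ⟪x, UU u hu Y⟫_ℂ = ⟪T x, Y⟫_ℂ := by
      rw [← inner_conj_symm, UU_inner, inner_conj_symm]
    rw [h6]
    simp
  rw [h5, ← hYn]
  refine (norm_inner_le_norm _ _).trans ?_
  rw [dist_eq_norm] at hx
  exact mul_le_mul_of_nonneg_right hx.le (norm_nonneg _)

end Pool.Agent.Q144.TC.RED
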