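import Pool.Agent.Q130.TC.Stm2
import Pool.Agent.Y108.RO.CTG

/-!
The smallest singular value of a measurable matrix (job SM of helper130).
-/

set_option autoImplicit false

namespace Pool.Agent.Q144.TC.SM

open MeasureTheory Set Metric Filter Topology Matrix
open scoped InnerProductSpace ENNReal NNReal ComplexConjugate
open Pool.Agent.Q130.TC
open Pool.Agent.Y283.NK (ct)
open Pool.Agent.Y604.NK (meas_ct)

section norm

variable {m : ℕ}

/-- the euclidean norm -/
noncomputable def N (y : Fin m → ℂ) : ℝ := √(∑ i, ‖y i‖ ^ 2)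

theorem N_nonneg (y : Fin m → ℂ) : 0 ≤ N y := Real.sqrt_nonneg _

theorem N_sq (y : Fin m → ℂ) : N y ^ 2 = ∑ i, ‖y i‖ ^ 2 :=
  Real.sq_sqrt (Finset.sum_nonneg fun i _ => by positivity)

theorem N_smul (a : ℂ) (y : Fin m → ℂ) : N (a • y) = ‖a‖ * N y := by
  unfold N
  have h : ∑ i, ‖(a • y) i‖ ^ 2 = ‖a‖ ^ 2 * ∑ i, ‖y i‖ ^ 2 := by
    rw [Finset.mul_sum]
    refine Finset.sum_congr rfl fun i _ => ?_
    rw [Pi.smul_apply, norm_smul, mul_pow]
  rw [h, Real.sqrt_mul (by positivity), Real.sqrt_sq (norm_nonneg _)]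

theorem N_eq_zero {y : Fin m → ℂ} (h : N y = 0) : y = 0 := by
  have h1 := N_sq y
  rw [h, zero_pow two_ne_zero] at h1
  funext i
  have h2 := (Finset.sum_eq_zero_iff_of_nonneg (fun i _ => by positivity)).1 h1.symm i (Finset.mem_univ i)
  exact norm_eq_zero.1 (sq_eq_zero_iff.1 h2)

theorem N_zero : N (0 : Fin m → ℂ) = 0 := by
  unfold N
  simp

theorem N_cont : Continuous (N (m := m)) := by
  unfold N
  fun_prop

/-- the unit sphere -/
def Sph (m : ℕ) : Set (Fin m → ℂ) := {y | N y = 1}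

theorem Sph_nonempty (hm : 1 ≤ m) : Nonempty (Sph m) := by
  refine ⟨⟨Pi.single ⟨0, hm⟩ 1, ?_⟩⟩
  show N _ = 1
  unfold N
  rw [Finset.sum_eq_single (⟨0, hm⟩ : Fin m)]
  · simp
  · intro b _ hb
    rw [Pi.single_eq_of_ne hb]
    simp
  · intro h
    exact absurd (Finset.mem_univ _) h

/-- a sequence as a function on the natural numbers -/
def ex (y : Fin m → ℂ) (j : ℕ) : ℂ := if h : j < m then y ⟨j, h⟩ else 0

theorem ex_fin (y : Fin m → ℂ) : (fun i : Fin m => ex y i) = y := by
  funext i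
  unfold ex
  rw [dif_pos i.2]

theorem nm_eq (c : ℕ → ℂ) : nm m c = N (fun i : Fin m => c i) := by
  unfold nm N
  rw [Finset.sum_range]

end norm

section main

variable {S : Type} [MeasurableSpace S] {μ : Measure S} {φ : S → ℂ} {u v : ℕ → Lp ℂ 2 μ} {m : ℕ}

/-- the matrix `1 - F(z)` -/
noncomputable def A (φ : S → ℂ) (u v : ℕ → Lp ℂ 2 μ) (m : ℕ) (z : ℂ) : Matrix (Fin m) (Fin m) ℂ :=
  1 - Matrix.of fun i j : Fin m => ct φ (v i) (u j) z

theorem Am_eq (z : ℂ) (c : ℕ → ℂ) (i : Fin m) :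
    Am φ u v m z c i = (A φ u v m z *ᵥ fun j : Fin m => c j) i := by
  unfold Am A
  rw [Matrix.sub_mulVec, Matrix.one_mulVec, Pi.sub_apply, Finset.sum_range]
  rfl

theorem nm_Am (z : ℂ) (c : ℕ → ℂ) :
    nm m (Am φ u v m z c) = N (A φ u v m z *ᵥ fun j : Fin m => c j) := by
  rw [nm_eq]
  congr 1
  funext i
  exact Am_eq z c i

theorem sm_bdd (z : ℂ) : BddBelow {t | ∃ c : ℕ → ℂ, nm m c = 1 ∧ nm m (Am φ u v m z c) = t} := by
  refine ⟨0, ?_⟩
  rintro _ ⟨c, -, rfl⟩
  exact Real.sqrt_nonneg _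

theorem sm_nonneg (z : ℂ) : 0 ≤ sm φ u v m z := by
  apply Real.sInf_nonneg
  rintro _ ⟨c, -, rfl⟩
  exact Real.sqrt_nonneg _

theorem sm_le (z : ℂ) (y : Fin m → ℂ) (hy : N y = 1) : sm φ u v m z ≤ N (A φ u v m z *ᵥ y) := by
  refine csInf_le (sm_bdd z) ⟨ex y, ?_, ?_⟩
  · rw [nm_eq, ex_fin, hy]
  · rw [nm_Am, ex_fin]

theorem sm_mul_le (z : ℂ) (y : Fin m → ℂ) : sm φ u v m z * N y ≤ N (A φ u v m z *ᵥ y) := by
  by_cases h0 : N y = 0
  · rw [h0, mul_zero]
    exact N_nonneg _
  · have hpos : 0 < N y := lt_of_le_of_ne (N_nonneg y) (Ne.symm h0)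
    have h1 : ‖((N y)⁻¹ : ℂ)‖ = (N y)⁻¹ := by
      rw [norm_inv, Complex.norm_real, Real.norm_eq_abs, abs_of_pos hpos]
    have h2 := sm_le (φ := φ) (u := u) (v := v) z (((N y)⁻¹ : ℂ) • y) (by
      rw [N_smul, h1, inv_mul_cancel₀ h0])
    rw [Matrix.mulVec_smul, N_smul, h1] at h2
    calc sm φ u v m z * N y ≤ ((N y)⁻¹ * N (A φ u v m z *ᵥ y)) * N y :=
          mul_le_mul_of_nonneg_right h2 hpos.le
      _ = _ := by field_simp

/-- a dense sequence in the unit sphere -/
noncomputable def dd (hm : 1 ≤ m) (k : ℕ) : Fin m → ℂ :=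
  haveI := Sph_nonempty hm
  (TopologicalSpace.denseSeq (Sph m) k : Fin m → ℂ)

theorem dd_norm (hm : 1 ≤ m) (k : ℕ) : N (dd hm k) = 1 := by
  unfold dd
  have := Sph_nonempty hm
  exact (TopologicalSpace.denseSeq (Sph m) k).2

theorem dd_dense (hm : 1 ≤ m) (f : (Fin m → ℂ) → ℝ) (hf : Continuous f) (y : Fin m → ℂ)
    (hy : N y = 1) (t : ℝ) (ht : f y < t) : ∃ k, f (dd hm k) < t := by
  have := Sph_nonempty hm
  have ho : IsOpen {x : Sph m | f x < t} :=
    isOpen_lt (hf.comp continuous_subtype_val) continuous_const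
  obtain ⟨k, hk⟩ := (TopologicalSpace.denseRange_denseSeq (Sph m)).exists_mem_open ho ⟨⟨y, hy⟩, ht⟩
  exact ⟨k, hk⟩

theorem cont_A (z : ℂ) : Continuous fun y : Fin m → ℂ => N (A φ u v m z *ᵥ y) := by
  refine N_cont.comp ?_
  exact Continuous.matrix_mulVec continuous_const continuous_id

theorem sm_exists (hm : 1 ≤ m) (z : ℂ) (t : ℝ) (ht : sm φ u v m z < t) :
    ∃ k, N (A φ u v m z *ᵥ dd hm k) < t := by
  obtain ⟨s, ⟨c, hc1, rfl⟩, hc2⟩ := (csInf_lt_iff (sm_bdd z) (by
    obtain ⟨y⟩ := Sph_nonempty hm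
    exact ⟨_, ex y.1, by rw [nm_eq, ex_fin]; exact y.2, rfl⟩)).1 ht
  rw [nm_eq] at hc1
  rw [nm_Am] at hc2
  exact dd_dense hm _ (cont_A z) _ hc1 t hc2

theorem sm_iInf (hm : 1 ≤ m) (z : ℂ) : sm φ u v m z = ⨅ k, N (A φ u v m z *ᵥ dd hm k) := by
  have hb : BddBelow (Set.range fun k => N (A φ u v m z *ᵥ dd hm k)) := by
    refine ⟨0, ?_⟩
    rintro _ ⟨k, rfl⟩
    exact N_nonneg _
  apply le_antisymm
  · exact le_ciInf fun k => sm_le z _ (dd_norm hm k)
  · refine le_of_forall_pos_lt_add fun ε hε => ?_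
    obtain ⟨k, hk⟩ := sm_exists (φ := φ) (u := u) (v := v) hm z _ (lt_add_of_pos_right _ hε)
    exact lt_of_le_of_lt (ciInf_le hb k) hk

variable [SigmaFinite μ]

theorem meas_Aij (hφ : Measurable φ) (i j : Fin m) : Measurable fun z => A φ u v m z i j := by
  unfold A
  simp only [Matrix.sub_apply, Matrix.of_apply]
  exact measurable_const.sub (meas_ct hφ _ _)

theorem meas_N {f : ℂ → Fin m → ℂ} (hf : ∀ i, Measurable fun z => f z i) :
    Measurable fun z => N (f z) := by
  unfold N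
  refine Measurable.sqrt ?_
  exact Finset.measurable_sum _ fun i _ => (hf i).norm.pow_const 2

theorem meas_mulVec (hφ : Measurable φ) {f : ℂ → Fin m → ℂ} (hf : ∀ i, Measurable fun z => f z i)
    (i : Fin m) : Measurable fun z => (A φ u v m z *ᵥ f z) i := by
  have h : (fun z => (A φ u v m z *ᵥ f z) i) = fun z => ∑ j, A φ u v m z i j * f z j := rfl
  rw [h]
  exact Finset.measurable_sum _ fun j _ => (meas_Aij hφ i j).mul (hf j)

theorem meas_sm (hφ : Measurable φ) (hm : 1 ≤ m) : Measurable (sm φ u v m) := by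
  have h : sm φ u v m = fun z => ⨅ k, N (A φ u v m z *ᵥ dd hm k) := by
    funext z
    exact sm_iInf hm z
  rw [h]
  exact Measurable.iInf fun k => meas_N fun i =>
    meas_mulVec (u := u) (v := v) hφ (f := fun _ => dd hm k) (fun _ => measurable_const) i

/-- measurability of continuous functions of the matrix -/
theorem meas_comp (hφ : Measurable φ) (F : Matrix (Fin m) (Fin m) ℂ → ℂ) (hF : Continuous F) :
    Measurable fun z => F (A φ u v m z) := by
  have h1 : Measurable fun B : Fin m → Fin m → ℂ => F (Matrix.of B) := by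
    have h2 : Continuous fun B : Fin m → Fin m → ℂ => F (Matrix.of B) := hF.comp continuous_id
    exact h2.measurable
  have h3 : Measurable fun z => (fun i j => A φ u v m z i j : Fin m → Fin m → ℂ) :=
    measurable_pi_iff.2 fun i => measurable_pi_iff.2 fun j => meas_Aij hφ i j
  exact h1.comp h3

theorem sm_main : S_SM := by
  classical
  intro S _ μ _ φ hφ u v m hm
  refine ⟨meas_sm hφ hm, fun z => sm_nonneg z, fun δ hδ => ?_, fun b hb => ?_⟩
  · have hex : ∀ z : ℂ, ∃ k, N (A φ u v m z *ᵥ dd hm k) < sm φ u v m z + δ := fun z =>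
      sm_exists hm z _ (lt_add_of_pos_right _ hδ)
    have hk : Measurable fun z => Nat.find (hex z) := by
      refine measurable_find hex fun k => ?_
      exact measurableSet_lt (meas_N fun i =>
          meas_mulVec (u := u) (v := v) hφ (f := fun _ => dd hm k) (fun _ => measurable_const) i)
        ((meas_sm hφ hm).add_const δ)
    refine ⟨fun j z => ex (dd hm (Nat.find (hex z))) j, fun j => ?_, fun z => ⟨?_, ?_⟩⟩
    · have h1 : Measurable fun k : ℕ => ex (dd hm k) j := measurable_of_countable _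
      exact h1.comp hk
    · rw [nm_eq, ex_fin, dd_norm]
    · rw [nm_Am, ex_fin]
      exact (Nat.find_spec (hex z)).le
  · let h : ℂ → Fin m → ℂ := fun z j => (sm φ u v m z : ℂ) *
      ∑ i : Fin m, ((A φ u v m z).det)⁻¹ * (A φ u v m z).adjugate j i * b i z
    have hh : ∀ z, h z = (sm φ u v m z : ℂ) •
        (((A φ u v m z).det)⁻¹ • ((A φ u v m z).adjugate *ᵥ fun i : Fin m => b i z)) := by
      intro z
      funext j
      simp only [h, Pi.smul_apply, smul_eq_mul, Matrix.mulVec, dotProduct]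
      congr 1
      rw [Finset.mul_sum]
      refine Finset.sum_congr rfl fun i _ => ?_
      ring
    have hmul : ∀ z, A φ u v m z *ᵥ h z = (sm φ u v m z : ℂ) • fun i : Fin m => b i z := by
      intro z
      rw [hh, Matrix.mulVec_smul]
      by_cases h0 : sm φ u v m z = 0
      · rw [h0]
        simp
      · congr 1
        have hdet : (A φ u v m z).det ≠ 0 := by
          intro hd
          obtain ⟨y, hy, hy0⟩ := Matrix.exists_mulVec_eq_zero_iff.2 hd
          have h1 := sm_mul_le (φ := φ) (u := u) (v := v) z y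
          rw [hy0, N_zero] at h1
          have h2 : 0 < N y := lt_of_le_of_ne (N_nonneg y) (fun h3 => hy (N_eq_zero h3.symm))
          have h3 : 0 < sm φ u v m z := lt_of_le_of_ne (sm_nonneg z) (Ne.symm h0)
          have h4 := mul_pos h3 h2
          linarith
        rw [Matrix.mulVec_smul, Matrix.mulVec_mulVec, Matrix.mul_adjugate, Matrix.smul_mulVec,
          Matrix.one_mulVec, smul_smul, inv_mul_cancel₀ hdet, one_smul]
    refine ⟨fun j z => ex (h z) j, fun j => ?_, fun z => ⟨fun i hi => ?_, ?_⟩⟩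
    · unfold ex
      by_cases hj : j < m
      · simp only [dif_pos hj, h]
        refine (Complex.measurable_ofReal.comp (meas_sm hφ hm)).mul ?_
        refine Finset.measurable_sum _ fun i _ => ?_
        refine Measurable.mul (Measurable.mul ?_ ?_) (hb i)
        · exact (meas_comp hφ (fun B => B.det) (Continuous.matrix_det continuous_id)).inv
        · exact meas_comp hφ (fun B => B.adjugate ⟨j, hj⟩ i)
            ((continuous_id.matrix_adjugate).matrix_elem ⟨j, hj⟩ i)
      · simp only [dif_neg hj]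
        exact measurable_const
    · have h1 := Am_eq (φ := φ) (u := u) (v := v) z (ex (h z)) (⟨i, hi⟩ : Fin m)
      rw [ex_fin, hmul] at h1
      exact h1
    · rw [nm_eq, nm_eq, ex_fin]
      by_cases h0 : sm φ u v m z = 0
      · have h1 : h z = 0 := by
          rw [hh, h0]
          simp
        rw [h1, N_zero]
        exact N_nonneg _
      · have h3 : 0 < sm φ u v m z := lt_of_le_of_ne (sm_nonneg z) (Ne.symm h0)
        have h1 := sm_mul_le (φ := φ) (u := u) (v := v) z (h z)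
        rw [hmul, N_smul, Complex.norm_real, Real.norm_eq_abs, abs_of_pos h3] at h1
        exact le_of_mul_le_mul_left h1 h3

end main

end Pool.Agent.Q144.TC.SM
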