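import Pool.Agent.Q130.TC.Stm2

/-!
Vector valued weak type estimates by random signs (job MZ of helper130).
-/

set_option autoImplicit false

namespace Pool.Agent.Q144.TC.MZ

open MeasureTheory Set Metric Filter Topology
open scoped ENNReal NNReal ComplexConjugate
open Pool.Agent.Q130.TC
open Pool.Agent.Y271.RO (Bd)

section signs

variable {ι : Type} [Fintype ι] [DecidableEq ι]

/-- the sign -/
def sg (b : Bool) : ℝ := if b then 1 else -1

theorem sg_sq (b : Bool) : sg b * sg b = 1 := by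
  unfold sg
  split_ifs <;> norm_num

theorem sg_not (b : Bool) : sg (!b) = - sg b := by
  cases b <;> simp [sg]

/-- the signed sum over a finite set -/
noncomputable def SS (X : ι → ℂ) (s : Finset ι) (e : ι → Bool) : ℂ := ∑ i ∈ s, (sg (e i) : ℂ) * X i

theorem norm_pm (x y : ℂ) : ‖x + y‖ ^ 2 + ‖x - y‖ ^ 2 = 2 * (‖x‖ ^ 2 + ‖y‖ ^ 2) := by
  have h := parallelogram_law_with_norm ℝ x y
  nlinarith

theorem norm_pm4 (x y : ℂ) :
    ‖x + y‖ ^ 4 + ‖x - y‖ ^ 4 ≤ 2 * ‖x‖ ^ 4 + 12 * (‖x‖ ^ 2 * ‖y‖ ^ 2) + 2 * ‖y‖ ^ 4 := by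
  have h1 : ‖x + y‖ ^ 2 = ‖x‖ ^ 2 + 2 * inner ℝ x y + ‖y‖ ^ 2 := norm_add_sq_real x y
  have h2 : ‖x - y‖ ^ 2 = ‖x‖ ^ 2 - 2 * inner ℝ x y + ‖y‖ ^ 2 := norm_sub_sq_real x y
  have h3 : |(inner ℝ x y : ℝ)| ≤ ‖x‖ * ‖y‖ := abs_real_inner_le_norm x y
  have h4 : (inner ℝ x y : ℝ) ^ 2 ≤ ‖x‖ ^ 2 * ‖y‖ ^ 2 := by
    rw [← mul_pow, ← sq_abs]
    exact pow_le_pow_left₀ (abs_nonneg _) h3 2
  have e1 : ‖x + y‖ ^ 4 = (‖x + y‖ ^ 2) ^ 2 := by ring
  have e2 : ‖x - y‖ ^ 4 = (‖x - y‖ ^ 2) ^ 2 := by ring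
  rw [e1, e2, h1, h2]
  nlinarith

/-- changing one sign -/
theorem sum_flip (a : ι) (G : (ι → Bool) → ℝ) :
    ∑ e, G e = (1 / 2) * ∑ e, (G e + G (Function.update e a (!e a))) := by
  have hinv : Function.Involutive fun e : ι → Bool => Function.update e a (!e a) := by
    intro e
    funext i
    by_cases h : i = a
    · subst h
      simp
    · simp [h]
  have h1 : ∑ e, G (Function.update e a (!e a)) = ∑ e, G e :=
    Equiv.sum_comp hinv.toPerm G
  rw [Finset.sum_add_distrib, h1]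
  ring

omit [Fintype ι] in
theorem SS_insert (X : ι → ℂ) (s : Finset ι) (a : ι) (ha : a ∉ s) (e : ι → Bool) :
    SS X (insert a s) e = SS X s e + (sg (e a) : ℂ) * X a ∧
    SS X (insert a s) (Function.update e a (!e a)) = SS X s e - (sg (e a) : ℂ) * X a := by
  unfold SS
  rw [Finset.sum_insert ha, Finset.sum_insert ha]
  refine ⟨add_comm _ _, ?_⟩
  have h1 : ∑ i ∈ s, (sg (Function.update e a (!e a) i) : ℂ) * X i = ∑ i ∈ s, (sg (e i) : ℂ) * X i := by
    refine Finset.sum_congr rfl fun i hi => ?_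
    have h2 : i ≠ a := fun h => ha (h ▸ hi)
    rw [Function.update_of_ne h2]
  rw [h1, Function.update_self, sg_not]
  push_cast
  ring

theorem norm_sg (b : Bool) (x : ℂ) : ‖(sg b : ℂ) * x‖ = ‖x‖ := by
  rw [norm_mul, Complex.norm_real]
  cases b <;> simp [sg]

theorem mom (X : ι → ℂ) (s : Finset ι) :
    ∑ e, ‖SS X s e‖ ^ 2 = (2 : ℝ) ^ Fintype.card ι * ∑ i ∈ s, ‖X i‖ ^ 2 ∧
    ∑ e, ‖SS X s e‖ ^ 4 ≤ 3 * (2 : ℝ) ^ Fintype.card ι * (∑ i ∈ s, ‖X i‖ ^ 2) ^ 2 := by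
  have hcard : (Finset.univ : Finset (ι → Bool)).card = 2 ^ Fintype.card ι := by
    rw [Finset.card_univ, Fintype.card_fun, Fintype.card_bool]
  induction s using Finset.induction_on with
  | empty => simp [SS]
  | insert a s ha ih =>
    obtain ⟨ih1, ih2⟩ := ih
    obtain ⟨n, hn⟩ : ∃ n : ℝ, n = (2 : ℝ) ^ Fintype.card ι := ⟨_, rfl⟩
    obtain ⟨A, hA⟩ : ∃ A : ℝ, A = ∑ i ∈ s, ‖X i‖ ^ 2 := ⟨_, rfl⟩
    rw [← hn, ← hA] at ih1 ih2
    have hn0 : 0 ≤ n := by rw [hn]; positivity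
    have hcn : ((Finset.univ : Finset (ι → Bool)).card : ℝ) = n := by
      rw [hcard, hn]
      push_cast
      rfl
    rw [Finset.sum_insert ha, ← hn, ← hA]
    constructor
    · rw [sum_flip a]
      have h1 : ∀ e, ‖SS X (insert a s) e‖ ^ 2 + ‖SS X (insert a s) (Function.update e a (!e a))‖ ^ 2 =
          2 * ‖SS X s e‖ ^ 2 + 2 * ‖X a‖ ^ 2 := by
        intro e
        obtain ⟨h2, h3⟩ := SS_insert X s a ha e
        rw [h2, h3, norm_pm, norm_sg]
        ring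
      rw [Finset.sum_congr rfl fun e _ => h1 e, Finset.sum_add_distrib, ← Finset.mul_sum, ih1,
        Finset.sum_const, nsmul_eq_mul, hcn]
      ring
    · rw [sum_flip a]
      have h1 : ∀ e, ‖SS X (insert a s) e‖ ^ 4 + ‖SS X (insert a s) (Function.update e a (!e a))‖ ^ 4 ≤
          2 * ‖SS X s e‖ ^ 4 + 12 * (‖SS X s e‖ ^ 2 * ‖X a‖ ^ 2) + 2 * ‖X a‖ ^ 4 := by
        intro e
        obtain ⟨h2, h3⟩ := SS_insert X s a ha e
        rw [h2, h3]
        have h4 := norm_pm4 (SS X s e) ((sg (e a) : ℂ) * X a)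
        rwa [norm_sg] at h4
      have h2 := Finset.sum_le_sum fun e (_ : e ∈ (Finset.univ : Finset (ι → Bool))) => h1 e
      have h3 : ∑ e : ι → Bool, (2 * ‖SS X s e‖ ^ 4 + 12 * (‖SS X s e‖ ^ 2 * ‖X a‖ ^ 2) + 2 * ‖X a‖ ^ 4) =
          2 * (∑ e, ‖SS X s e‖ ^ 4) + 12 * ((n * A) * ‖X a‖ ^ 2) + n * (2 * ‖X a‖ ^ 4) := by
        rw [Finset.sum_add_distrib, Finset.sum_add_distrib, ← Finset.mul_sum, ← Finset.mul_sum,
          ← Finset.sum_mul, ih1, Finset.sum_const, nsmul_eq_mul, hcn]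
      rw [h3] at h2
      have hp : 0 ≤ n * ‖X a‖ ^ 4 := by positivity
      nlinarith

/-- the second moment of the norm -/
theorem mean_le (X : ι → ℂ) :
    ∑ e, ‖SS X Finset.univ e‖ ≤ (2 : ℝ) ^ Fintype.card ι * √(∑ i, ‖X i‖ ^ 2) := by
  obtain ⟨n, hn⟩ : ∃ n : ℝ, n = (2 : ℝ) ^ Fintype.card ι := ⟨_, rfl⟩
  obtain ⟨A, hA⟩ : ∃ A : ℝ, A = ∑ i, ‖X i‖ ^ 2 := ⟨_, rfl⟩
  have hn0 : 0 ≤ n := by rw [hn]; positivity
  have hA0 : 0 ≤ A := by rw [hA]; exact Finset.sum_nonneg fun i _ => by positivity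
  have h1 := (mom X Finset.univ).1
  have hcn : ((Finset.univ : Finset (ι → Bool)).card : ℝ) = n := by
    rw [Finset.card_univ, Fintype.card_fun, Fintype.card_bool, hn]
    push_cast
    rfl
  have h2 := sq_sum_le_card_mul_sum_sq (s := (Finset.univ : Finset (ι → Bool)))
    (f := fun e => ‖SS X Finset.univ e‖)
  rw [h1, hcn, ← hn, ← hA] at h2
  rw [← hn, ← hA]
  refine (pow_le_pow_iff_left₀ (Finset.sum_nonneg fun e _ => norm_nonneg _) (by positivity) two_ne_zero).1 ?_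
  rw [mul_pow, Real.sq_sqrt hA0]
  calc _ ≤ _ := h2
    _ = _ := by ring

open Classical in
/-- the Paley-Zygmund inequality -/
theorem pz (X : ι → ℂ) :
    (3 / 16 : ℝ) * (2 : ℝ) ^ Fintype.card ι ≤
      ((Finset.univ : Finset (ι → Bool)).filter
        (fun e => √(∑ i, ‖X i‖ ^ 2) / 2 ≤ ‖SS X Finset.univ e‖)).card := by
  obtain ⟨n, hn⟩ : ∃ n : ℝ, n = (2 : ℝ) ^ Fintype.card ι := ⟨_, rfl⟩
  obtain ⟨A, hA⟩ : ∃ A : ℝ, A = ∑ i, ‖X i‖ ^ 2 := ⟨_, rfl⟩
  have hn0 : 0 < n := by rw [hn]; positivity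
  have hA0 : 0 ≤ A := by rw [hA]; exact Finset.sum_nonneg fun i _ => by positivity
  have hcn : ((Finset.univ : Finset (ι → Bool)).card : ℝ) = n := by
    rw [Finset.card_univ, Fintype.card_fun, Fintype.card_bool, hn]
    push_cast
    rfl
  obtain ⟨h1, h2⟩ := mom X Finset.univ
  rw [← hn, ← hA] at h1 h2
  rw [← hn, ← hA]
  set G := (Finset.univ : Finset (ι → Bool)).filter (fun e => √A / 2 ≤ ‖SS X Finset.univ e‖) with hG
  rcases eq_or_lt_of_le hA0 with h0 | hpos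
  · have h3 : G = Finset.univ := by
      rw [hG, Finset.filter_eq_self]
      intro e _
      rw [← h0, Real.sqrt_zero, zero_div]
      exact norm_nonneg _
    rw [h3, hcn]
    linarith
  · have h3 : ∑ e ∈ Finset.univ.filter (fun e => ¬ √A / 2 ≤ ‖SS X Finset.univ e‖), ‖SS X Finset.univ e‖ ^ 2 ≤
        n * (A / 4) := by
      calc ∑ e ∈ Finset.univ.filter (fun e => ¬ √A / 2 ≤ ‖SS X Finset.univ e‖), ‖SS X Finset.univ e‖ ^ 2
          ≤ ∑ e ∈ Finset.univ.filter (fun e => ¬ √A / 2 ≤ ‖SS X Finset.univ e‖), A / 4 := by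
            refine Finset.sum_le_sum fun e he => ?_
            have h4 := not_le.1 (Finset.mem_filter.1 he).2
            have h5 := pow_le_pow_left₀ (norm_nonneg _) h4.le 2
            rw [div_pow, Real.sq_sqrt hA0] at h5
            linarith
        _ ≤ ∑ e : ι → Bool, A / 4 :=
            Finset.sum_le_sum_of_subset_of_nonneg (Finset.filter_subset _ _) fun _ _ _ => by positivity
        _ = n * (A / 4) := by rw [Finset.sum_const, nsmul_eq_mul, hcn]
    have h4 := Finset.sum_filter_add_sum_filter_not (Finset.univ : Finset (ι → Bool))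
      (fun e => √A / 2 ≤ ‖SS X Finset.univ e‖) (fun e => ‖SS X Finset.univ e‖ ^ 2)
    rw [h1] at h4
    have h5 : 3 / 4 * (n * A) ≤ ∑ e ∈ G, ‖SS X Finset.univ e‖ ^ 2 := by linarith
    have h6 := sq_sum_le_card_mul_sum_sq (s := G) (f := fun e => ‖SS X Finset.univ e‖ ^ 2)
    have h7 : ∑ e ∈ G, (‖SS X Finset.univ e‖ ^ 2) ^ 2 ≤ 3 * n * A ^ 2 := by
      refine le_trans ?_ h2
      calc ∑ e ∈ G, (‖SS X Finset.univ e‖ ^ 2) ^ 2 ≤ ∑ e, (‖SS X Finset.univ e‖ ^ 2) ^ 2 :=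
            Finset.sum_le_sum_of_subset_of_nonneg (Finset.filter_subset _ _) fun _ _ _ => by positivity
        _ = _ := Finset.sum_congr rfl fun e _ => by ring
    have h8 : (3 / 4 * (n * A)) ^ 2 ≤ (G.card : ℝ) * (3 * n * A ^ 2) :=
      (pow_le_pow_left₀ (by positivity) h5 2).trans
        (h6.trans (mul_le_mul_of_nonneg_left h7 (Nat.cast_nonneg _)))
    have h9 : 0 < 3 * n * A ^ 2 := by positivity
    have h10 : (3 / 16 * n) * (3 * n * A ^ 2) ≤ (G.card : ℝ) * (3 * n * A ^ 2) := by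
      refine le_trans (le_of_eq ?_) h8
      ring
    exact le_of_mul_le_mul_right h10 h9

end signs

theorem wti (h : S_CAU) : S_WTI := by
  intro ρ hρ
  obtain ⟨h1, h2⟩ := h
  obtain ⟨M₀, hM₀, h3⟩ := h2 ρ hρ
  refine ⟨M₀ + 1, by linarith, ?_⟩
  intro a G hG hGa S _ μ _ φ k hφ hk t ht
  obtain ⟨hmeas, -, -⟩ := h1 S μ φ k hφ hk
  have hE : MeasurableSet {z | t ≤ ‖cau μ φ k z‖} := measurableSet_le measurable_const hmeas.norm
  have hBd : Bd (G.indicator fun _ => (1 : ℂ)) a ρ 1 := by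
    refine ⟨measurable_const.indicator hG, zero_le_one, fun z => ?_, fun z hz => ?_⟩
    · by_cases hz : z ∈ G
      · simp [hz]
      · simp [hz]
    · exact Set.indicator_of_notMem (fun h' => hz (hGa h')) _
  obtain ⟨h4, h5, -⟩ := h3 S μ φ k hφ hk a 1 _ hBd
  have hI : 0 ≤ ∫ s, ‖k s‖ ∂μ := integral_nonneg fun s => norm_nonneg _
  rw [add_zero, le_div_iff₀ ht]
  have hGint : Integrable (G.indicator (fun _ => (1 : ℝ))) := by
    refine (integrable_indicator_iff hG).2 ?_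
    refine integrableOn_const (hs := ?_)
    exact ((measure_mono hGa).trans_lt measure_ball_lt_top).ne
  have h6 : (∫ z in {z | t ≤ ‖cau μ φ k z‖}, G.indicator (fun _ => (1 : ℝ)) z) * t ≤
      ∫ z, ‖(G.indicator fun _ => (1 : ℂ)) z * cau μ φ k z‖ := by
    rw [← integral_mul_const]
    have h7 : ∫ z in {z | t ≤ ‖cau μ φ k z‖}, G.indicator (fun _ => (1 : ℝ)) z * t ≤
        ∫ z in {z | t ≤ ‖cau μ φ k z‖}, ‖(G.indicator fun _ => (1 : ℂ)) z * cau μ φ k z‖ := by
      refine setIntegral_mono_on (hGint.mul_const t).integrableOn h4.norm.integrableOn hE ?_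
      intro z hz
      have hz' : t ≤ ‖cau μ φ k z‖ := hz
      by_cases hzG : z ∈ G
      · simp only [Set.indicator_of_mem hzG, one_mul]
        exact hz'
      · simp only [Set.indicator_of_notMem hzG, zero_mul, norm_zero]
        exact le_rfl
    exact h7.trans (setIntegral_le_integral h4.norm (Filter.Eventually.of_forall fun z => norm_nonneg _))
  calc _ ≤ _ := h6
    _ ≤ M₀ * 1 * ∫ s, ‖k s‖ ∂μ := h5
    _ ≤ _ := by nlinarith

theorem mz (hC : S_CAU) : S_MZ := by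
  classical
  obtain ⟨h1, -⟩ := hC
  refine ⟨32 / 3, by norm_num, ?_⟩
  intro h C δ hint hnn hC0 hδ0 hWT ι _ S _ μ _ φ k hφ hk t ht
  obtain ⟨n, hn⟩ : ∃ n : ℝ, n = (2 : ℝ) ^ Fintype.card ι := ⟨_, rfl⟩
  have hn0 : 0 < n := by rw [hn]; positivity
  have hcn : ((Finset.univ : Finset (ι → Bool)).card : ℝ) = n := by
    rw [Finset.card_univ, Fintype.card_fun, Fintype.card_bool, hn]
    push_cast
    rfl
  -- the signed functions
  let ke : (ι → Bool) → S → ℂ := fun e s => SS (fun i => k i s) Finset.univ e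
  have hke : ∀ e, Integrable (ke e) μ := fun e => by
    simp only [ke, SS]
    exact integrable_finsetSum _ fun i _ => (hk i).const_mul _
  have hmk : ∀ i, Measurable (cau μ φ (k i)) := fun i => (h1 S μ φ (k i) hφ (hk i)).1
  have hmke : ∀ e, Measurable (cau μ φ (ke e)) := fun e => (h1 S μ φ (ke e) hφ (hke e)).1
  have hE0 : MeasurableSet {z | t ≤ √(∑ i, ‖cau μ φ (k i) z‖ ^ 2)} :=
    measurableSet_le measurable_const
      (Measurable.sqrt (Finset.measurable_sum _ fun i _ => ((hmk i).norm.pow_const 2)))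
  have hEe : ∀ e, MeasurableSet {z | t / 2 ≤ ‖cau μ φ (ke e) z‖} := fun e =>
    measurableSet_le measurable_const (hmke e).norm
  -- the Cauchy transform of a signed sum
  have hae : ∀ᵐ z : ℂ, ∀ e, cau μ φ (ke e) z = SS (fun i => cau μ φ (k i) z) Finset.univ e := by
    have h2 : ∀ᵐ z : ℂ, ∀ i, Integrable (fun s => k i s * (z - φ s)⁻¹) μ :=
      (ae_all_iff).2 fun i => (h1 S μ φ (k i) hφ (hk i)).2.2
    filter_upwards [h2] with z hz e
    unfold cau
    simp only [ke, SS]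
    have h3 : ∀ s, (∑ i, (sg (e i) : ℂ) * k i s) * (z - φ s)⁻¹ =
        ∑ i, (sg (e i) : ℂ) * (k i s * (z - φ s)⁻¹) := by
      intro s
      rw [Finset.sum_mul]
      exact Finset.sum_congr rfl fun i _ => by ring
    simp only [h3]
    rw [integral_finsetSum _ fun i _ => (hz i).const_mul _]
    exact Finset.sum_congr rfl fun i _ => integral_const_mul _ _
  -- comparison of the integrals
  have hcmp : 3 / 16 * n * ∫ z in {z | t ≤ √(∑ i, ‖cau μ φ (k i) z‖ ^ 2)}, h z ≤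
      ∑ e : ι → Bool, ∫ z in {z | t / 2 ≤ ‖cau μ φ (ke e) z‖}, h z := by
    have e1 : ∀ e, ∫ z in {z | t / 2 ≤ ‖cau μ φ (ke e) z‖}, h z =
        ∫ z, ({z | t / 2 ≤ ‖cau μ φ (ke e) z‖}.indicator h) z := fun e =>
      (integral_indicator (hEe e)).symm
    rw [Finset.sum_congr rfl fun e _ => e1 e, ← integral_finsetSum _ fun e _ =>
      hint.indicator (hEe e), ← integral_indicator hE0, ← integral_const_mul]
    refine integral_mono_ae ((hint.indicator hE0).const_mul _)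
      (integrable_finsetSum _ fun e _ => hint.indicator (hEe e)) ?_
    filter_upwards [hae] with z hz
    by_cases hz0 : z ∈ {z | t ≤ √(∑ i, ‖cau μ φ (k i) z‖ ^ 2)}
    · rw [Set.indicator_of_mem hz0]
      have h4 := pz (fun i => cau μ φ (k i) z)
      rw [← hn] at h4
      have h5 : ∑ e : ι → Bool, ({z | t / 2 ≤ ‖cau μ φ (ke e) z‖}.indicator h) z =
          ((Finset.univ : Finset (ι → Bool)).filter
            (fun e => z ∈ {z | t / 2 ≤ ‖cau μ φ (ke e) z‖})).card * h z := by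
        simp only [Set.indicator_apply]
        rw [← Finset.sum_filter, Finset.sum_const, nsmul_eq_mul]
      rw [h5]
      refine mul_le_mul_of_nonneg_right (h4.trans ?_) (hnn z)
      have h6 : (Finset.univ : Finset (ι → Bool)).filter (fun e =>
          √(∑ i, ‖cau μ φ (k i) z‖ ^ 2) / 2 ≤ ‖SS (fun i => cau μ φ (k i) z) Finset.univ e‖) ⊆
          (Finset.univ : Finset (ι → Bool)).filter
            (fun e => z ∈ {z | t / 2 ≤ ‖cau μ φ (ke e) z‖}) := by
        intro e he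
        rw [Finset.mem_filter] at he ⊢
        refine ⟨he.1, ?_⟩
        have h7 : t ≤ √(∑ i, ‖cau μ φ (k i) z‖ ^ 2) := hz0
        show t / 2 ≤ ‖cau μ φ (ke e) z‖
        rw [hz e]
        linarith [he.2]
      exact_mod_cast Finset.card_le_card h6
    · rw [Set.indicator_of_notMem hz0, mul_zero]
      exact Finset.sum_nonneg fun e _ => Set.indicator_nonneg (fun z _ => hnn z) z
  -- the weak type bounds
  have hbd : ∑ e : ι → Bool, ∫ z in {z | t / 2 ≤ ‖cau μ φ (ke e) z‖}, h z ≤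
      ∑ e : ι → Bool, (C * (∫ s, ‖ke e s‖ ∂μ) / (t / 2) + δ) :=
    Finset.sum_le_sum fun e _ => hWT S μ φ (ke e) hφ (hke e) (t / 2) (by positivity)
  obtain ⟨I, hI⟩ : ∃ I : ℝ, I = ∫ s, √(∑ i, ‖k i s‖ ^ 2) ∂μ := ⟨_, rfl⟩
  have hIint : Integrable (fun s => √(∑ i, ‖k i s‖ ^ 2)) μ := by
    refine Integrable.mono' (g := fun s => ∑ i, ‖k i s‖) (integrable_finsetSum _ fun i _ => (hk i).norm) ?_ ?_
    · have h2 : AEStronglyMeasurable (fun s => ∑ i, ‖k i s‖ ^ 2) μ :=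
        Finset.aestronglyMeasurable_fun_sum _ fun i _ => ((hk i).aestronglyMeasurable.norm.pow 2)
      exact Real.continuous_sqrt.comp_aestronglyMeasurable h2
    · refine Filter.Eventually.of_forall fun s => ?_
      rw [Real.norm_eq_abs, abs_of_nonneg (Real.sqrt_nonneg _)]
      apply Real.sqrt_le_iff.2
      refine ⟨Finset.sum_nonneg fun i _ => norm_nonneg _, ?_⟩
      rw [sq, Finset.sum_mul]
      refine Finset.sum_le_sum fun i _ => ?_
      rw [sq]
      exact mul_le_mul_of_nonneg_left (Finset.single_le_sum (f := fun i => ‖k i s‖)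
        (fun i _ => norm_nonneg _) (Finset.mem_univ i)) (norm_nonneg _)
  have hsum : ∑ e : ι → Bool, ∫ s, ‖ke e s‖ ∂μ ≤ n * I := by
    rw [← integral_finsetSum _ fun e _ => (hke e).norm, hI, ← integral_const_mul]
    refine integral_mono (integrable_finsetSum _ fun e _ => (hke e).norm) (hIint.const_mul _) ?_
    intro s
    simp only [ke]
    rw [hn]
    exact mean_le fun i => k i s
  have hsum2 : ∑ e : ι → Bool, (C * (∫ s, ‖ke e s‖ ∂μ) / (t / 2) + δ) ≤ 2 * (C * (n * I) / t) + n * δ := by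
    rw [Finset.sum_add_distrib, Finset.sum_const, nsmul_eq_mul, hcn]
    have h2 : ∑ e : ι → Bool, C * (∫ s, ‖ke e s‖ ∂μ) / (t / 2) =
        2 * (C * (∑ e : ι → Bool, ∫ s, ‖ke e s‖ ∂μ) / t) := by
      rw [Finset.mul_sum, Finset.sum_div, Finset.mul_sum]
      refine Finset.sum_congr rfl fun e _ => ?_
      field_simp
    rw [h2]
    have h3 : C * (∑ e : ι → Bool, ∫ s, ‖ke e s‖ ∂μ) / t ≤ C * (n * I) / t := by
      apply div_le_div_of_nonneg_right _ ht.le
      exact mul_le_mul_of_nonneg_left hsum hC0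
    linarith
  rw [← hI]
  have hfin := hcmp.trans (hbd.trans hsum2)
  obtain ⟨J, hJ⟩ : ∃ J : ℝ, J = ∫ z in {z | t ≤ √(∑ i, ‖cau μ φ (k i) z‖ ^ 2)}, h z := ⟨_, rfl⟩
  rw [← hJ] at hfin ⊢
  have h9 : n * (3 / 16 * J) ≤ n * (2 * (C * I / t) + δ) := by
    have e2 : C * (n * I) / t = n * (C * I / t) := by ring
    rw [e2] at hfin
    linarith
  have h10 := le_of_mul_le_mul_left h9 hn0
  have h11 : 0 ≤ C * I / t := by
    have : 0 ≤ I := by rw [hI]; exact integral_nonneg fun s => Real.sqrt_nonneg _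
    positivity
  linarith

end Pool.Agent.Q144.TC.MZ
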